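import Pool.Agent.Helper78.PS.Upper
import Pool.Agent.Helper81.EX.Window

/-!
# Most binary cells are good
-/

set_option autoImplicit false

namespace Pool.Agent.Helper78.PS

open Pool.Agent.Helper36.DC Pool.Agent.Helper47.EX Finset

theorem sum2 (y : ℝ) (hy : 1 ≤ y) (hy1 : y ≤ 13 / 10) (J : ℕ) :
    ∑ u ∈ range (2 ^ J), y ^ (s 2 u) = (1 + y) ^ J := by
  have h : ∀ u ∈ range (2 ^ J), y ^ (s 2 u) = (1 + y) ^ J * W2 (fun _ => y) J u :=
    fun u hu => Pool.Agent.Helper59.EX.W2_const y hy J u (Finset.mem_range.1 hu)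
  rw [Finset.sum_congr rfl h, ← Finset.mul_sum,
    Pool.Agent.Helper81.EX.W2_sum _ (fun _ => ⟨hy, hy1⟩), mul_one]

theorem sum3 (y : ℝ) (hy : 1 ≤ y) (hy1 : y ≤ 13 / 10) (b : ℕ) :
    ∑ v ∈ range (3 ^ b), 1 / y ^ (s 3 v) = (1 + y⁻¹ + y⁻¹ ^ 2) ^ b := by
  have h : ∀ v ∈ range (3 ^ b), 1 / y ^ (s 3 v) =
      (1 + y⁻¹ + y⁻¹ ^ 2) ^ b * W3 (fun _ => y) b v :=
    fun v hv => Pool.Agent.Helper59.EX.W3_const y hy b v (Finset.mem_range.1 hv)
  rw [Finset.sum_congr rfl h, ← Finset.mul_sum,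
    Pool.Agent.Helper81.EX.W3_sum _ (fun _ => ⟨hy, hy1⟩), mul_one]

/-- numerical inequality for the binary digits -/
theorem num2 : (51 / 25 : ℝ) ≤ (2 : ℝ) ^ (0.9992 : ℝ) * (26 / 25 : ℝ) ^ (0.52 : ℝ) := by
  have h1 : (1.0149 : ℝ) * (51 / 50) ^ 25 ≤ (26 / 25) ^ 13 := by norm_num
  have h2 : (2 : ℝ) ≤ 1.0149 ^ 50 := by norm_num
  have h3 : (2 : ℝ) * ((51 / 50) ^ 25) ^ 50 ≤ ((26 / 25) ^ 13) ^ 50 := by
    calc (2 : ℝ) * ((51 / 50) ^ 25) ^ 50 ≤ 1.0149 ^ 50 * ((51 / 50) ^ 25) ^ 50 := by gcongr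
      _ = (1.0149 * (51 / 50) ^ 25) ^ 50 := (mul_pow _ _ _).symm
      _ ≤ ((26 / 25) ^ 13) ^ 50 := pow_le_pow_left₀ (by positivity) h1 50
  rw [← pow_mul, ← pow_mul] at h3
  norm_num only at h3
  have h4 : (51 / 25 : ℝ) ^ 1250 ≤ (2 : ℝ) ^ 1249 * (26 / 25 : ℝ) ^ 650 := by
    have e1 : (51 / 25 : ℝ) = 2 * (51 / 50) := by norm_num
    have e2 : (2 : ℝ) ^ 1250 = 2 ^ 1249 * 2 := pow_succ _ _
    rw [e1, mul_pow, e2, mul_assoc]
    exact mul_le_mul_of_nonneg_left h3 (by positivity)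
  have h5 : ((2 : ℝ) ^ (0.9992 : ℝ) * (26 / 25 : ℝ) ^ (0.52 : ℝ)) ^ 1250 =
      (2 : ℝ) ^ 1249 * (26 / 25 : ℝ) ^ 650 := by
    rw [mul_pow, ← Real.rpow_natCast ((2 : ℝ) ^ (0.9992 : ℝ)), ← Real.rpow_mul (by norm_num),
      ← Real.rpow_natCast ((26 / 25 : ℝ) ^ (0.52 : ℝ)), ← Real.rpow_mul (by norm_num),
      ← Real.rpow_natCast 2 1249, ← Real.rpow_natCast (26 / 25) 650]
    norm_num
  rw [← h5] at h4
  exact (pow_le_pow_iff_left₀ (by norm_num) (by positivity) (by norm_num)).1 h4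

theorem bad2 (J : ℕ) :
    ((((range (2 ^ J)).filter (fun Y => 52 * J < 100 * s 2 Y)).card : ℕ) : ℝ) ≤
      (2 : ℝ) ^ ((0.9992 : ℝ) * J) := by
  have hs := sum2 (26 / 25) (by norm_num) (by norm_num) J
  have h1 : ((((range (2 ^ J)).filter (fun Y => 52 * J < 100 * s 2 Y)).card : ℕ) : ℝ) *
      (26 / 25 : ℝ) ^ ((0.52 : ℝ) * J) ≤ (1 + 26 / 25) ^ J := by
    rw [← hs]
    calc ((((range (2 ^ J)).filter (fun Y => 52 * J < 100 * s 2 Y)).card : ℕ) : ℝ) *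
          (26 / 25 : ℝ) ^ ((0.52 : ℝ) * J)
        = ∑ Y ∈ (range (2 ^ J)).filter (fun Y => 52 * J < 100 * s 2 Y),
            (26 / 25 : ℝ) ^ ((0.52 : ℝ) * J) := by
          rw [Finset.sum_const, nsmul_eq_mul]
      _ ≤ ∑ Y ∈ (range (2 ^ J)).filter (fun Y => 52 * J < 100 * s 2 Y),
            (26 / 25 : ℝ) ^ (s 2 Y) := by
          apply Finset.sum_le_sum
          intro Y hY
          have h2 := (Finset.mem_filter.1 hY).2
          have h3 : (52 : ℝ) * J < 100 * (s 2 Y : ℝ) := by exact_mod_cast h2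
          rw [← Real.rpow_natCast]
          apply Real.rpow_le_rpow_of_exponent_le (by norm_num)
          linarith
      _ ≤ ∑ Y ∈ range (2 ^ J), (26 / 25 : ℝ) ^ (s 2 Y) := by
          apply Finset.sum_le_sum_of_subset_of_nonneg (Finset.filter_subset _ _)
          intros
          positivity
  have h4 : (1 + 26 / 25 : ℝ) ^ J ≤
      (2 : ℝ) ^ ((0.9992 : ℝ) * J) * (26 / 25 : ℝ) ^ ((0.52 : ℝ) * J) := by
    rw [Real.rpow_mul (by norm_num), Real.rpow_mul (by norm_num), Real.rpow_natCast,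
      Real.rpow_natCast, ← mul_pow]
    apply pow_le_pow_left₀ (by norm_num)
    refine le_trans (by norm_num) num2
  have h5 : (0 : ℝ) < (26 / 25 : ℝ) ^ ((0.52 : ℝ) * J) := by positivity
  exact le_of_mul_le_mul_right (h1.trans h4) h5

/-- numerical inequality for the ternary digits -/
theorem num3 : (1261 / 1323 : ℝ) ^ (0.63 : ℝ) * (21 / 20 : ℝ) ^ (0.6 : ℝ) ≤
    (2 : ℝ) ^ (-(0.001 : ℝ)) := by
  have h1 : (1261 / 1323 : ℝ) ^ 63 * (21 / 20) ^ 60 ≤ 0.91 := by norm_num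
  have h2 : (0.91 : ℝ) ^ 10 ≤ 2⁻¹ := by norm_num
  have h3 : ((1261 / 1323 : ℝ) ^ 63 * (21 / 20) ^ 60) ^ 10 ≤ 2⁻¹ :=
    (pow_le_pow_left₀ (by positivity) h1 10).trans h2
  have h4 : ((1261 / 1323 : ℝ) ^ (0.63 : ℝ) * (21 / 20 : ℝ) ^ (0.6 : ℝ)) ^ 1000 =
      ((1261 / 1323 : ℝ) ^ 63 * (21 / 20) ^ 60) ^ 10 := by
    rw [mul_pow, mul_pow, ← Real.rpow_natCast ((1261 / 1323 : ℝ) ^ (0.63 : ℝ)),
      ← Real.rpow_mul (by norm_num),
      ← Real.rpow_natCast ((21 / 20 : ℝ) ^ (0.6 : ℝ)), ← Real.rpow_mul (by norm_num),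
      ← pow_mul, ← pow_mul, ← Real.rpow_natCast (1261 / 1323) (63 * 10),
      ← Real.rpow_natCast (21 / 20) (60 * 10)]
    norm_num
  have h5 : ((2 : ℝ) ^ (-(0.001 : ℝ))) ^ 1000 = 2⁻¹ := by
    rw [← Real.rpow_natCast, ← Real.rpow_mul (by norm_num)]
    norm_num
  rw [← h4, ← h5] at h3
  exact (pow_le_pow_iff_left₀ (by positivity) (by positivity) (by norm_num)).1 h3

theorem hh_lower (J : ℕ) : (0.63 : ℝ) * J - 1 ≤ hh J := by
  have h1 : 2 ^ J < 3 ^ (hh J + 1) := two_pow_lt J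
  by_contra hcon
  have hcon : (hh J : ℝ) < 0.63 * J - 1 := not_le.1 hcon
  have h2 : 100 * (hh J + 1) < 63 * J := by
    have : (100 : ℝ) * (hh J + 1) < 63 * J := by linarith
    exact_mod_cast this
  have h3 : (2 ^ J) ^ 100 < (3 ^ (hh J + 1)) ^ 100 := Nat.pow_lt_pow_left h1 (by norm_num)
  have h4 : (3 ^ (hh J + 1)) ^ 100 ≤ 3 ^ (63 * J) := by
    rw [← pow_mul]
    exact Nat.pow_le_pow_right (by norm_num) (by omega)
  have h5 : 3 ^ (63 * J) ≤ (2 ^ J) ^ 100 := by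
    calc 3 ^ (63 * J) = (3 ^ 63) ^ J := pow_mul _ _ _
      _ ≤ (2 ^ 100) ^ J := Nat.pow_le_pow_left (by norm_num) J
      _ = (2 ^ J) ^ 100 := by rw [← pow_mul, ← pow_mul, mul_comm]
  omega

theorem bad3 (J : ℕ) :
    ((((range (3 ^ (hh J + 3))).filter (fun Z => 100 * s 3 Z < 60 * J)).card : ℕ) : ℝ) ≤
      29 * (2 : ℝ) ^ ((0.999 : ℝ) * J) := by
  have hs := sum3 (21 / 20) (by norm_num) (by norm_num) (hh J + 3)
  have h1 : ((((range (3 ^ (hh J + 3))).filter (fun Z => 100 * s 3 Z < 60 * J)).card : ℕ) : ℝ) *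
      (21 / 20 : ℝ) ^ (-(0.6 : ℝ) * J) ≤ (1261 / 441 : ℝ) ^ (hh J + 3) := by
    have e : (1 + (21 / 20 : ℝ)⁻¹ + (21 / 20 : ℝ)⁻¹ ^ 2) = 1261 / 441 := by norm_num
    rw [e] at hs
    rw [← hs]
    calc ((((range (3 ^ (hh J + 3))).filter (fun Z => 100 * s 3 Z < 60 * J)).card : ℕ) : ℝ) *
          (21 / 20 : ℝ) ^ (-(0.6 : ℝ) * J)
        = ∑ Z ∈ (range (3 ^ (hh J + 3))).filter (fun Z => 100 * s 3 Z < 60 * J),
            (21 / 20 : ℝ) ^ (-(0.6 : ℝ) * J) := by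
          rw [Finset.sum_const, nsmul_eq_mul]
      _ ≤ ∑ Z ∈ (range (3 ^ (hh J + 3))).filter (fun Z => 100 * s 3 Z < 60 * J),
            1 / (21 / 20 : ℝ) ^ (s 3 Z) := by
          apply Finset.sum_le_sum
          intro Z hZ
          have h2 := (Finset.mem_filter.1 hZ).2
          have h3 : (100 : ℝ) * (s 3 Z : ℝ) < 60 * J := by exact_mod_cast h2
          rw [← Real.rpow_natCast, one_div, ← Real.rpow_neg (by norm_num)]
          apply Real.rpow_le_rpow_of_exponent_le (by norm_num)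
          linarith
      _ ≤ ∑ Z ∈ range (3 ^ (hh J + 3)), 1 / (21 / 20 : ℝ) ^ (s 3 Z) := by
          apply Finset.sum_le_sum_of_subset_of_nonneg (Finset.filter_subset _ _)
          intros
          positivity
  have hθ : (1261 / 441 : ℝ) = 3 * (1261 / 1323) := by norm_num
  have h2 : (1261 / 441 : ℝ) ^ (hh J + 3) ≤
      29 * ((2 : ℝ) ^ J * (1261 / 1323 : ℝ) ^ ((0.63 : ℝ) * J)) := by
    have h3 : (3 : ℝ) ^ hh J ≤ 2 ^ J := by exact_mod_cast three_pow_le J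
    have h4 : (1261 / 1323 : ℝ) ^ hh J ≤ (1261 / 1323 : ℝ) ^ ((0.63 : ℝ) * J - 1) := by
      rw [← Real.rpow_natCast]
      exact Real.rpow_le_rpow_of_exponent_ge (by norm_num) (by norm_num) (hh_lower J)
    have h5 : (1261 / 1323 : ℝ) ^ ((0.63 : ℝ) * J - 1) =
        (1261 / 1323 : ℝ) ^ ((0.63 : ℝ) * J) * (1323 / 1261) := by
      rw [Real.rpow_sub (by norm_num), Real.rpow_one]
      field_simp
    rw [h5] at h4
    calc (1261 / 441 : ℝ) ^ (hh J + 3) = (1261 / 441 : ℝ) ^ 3 * ((3 : ℝ) ^ hh J *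
          (1261 / 1323) ^ hh J) := by
          rw [← mul_pow, ← hθ, pow_add]
          ring
      _ ≤ (1261 / 441 : ℝ) ^ 3 * ((2 : ℝ) ^ J *
          ((1261 / 1323 : ℝ) ^ ((0.63 : ℝ) * J) * (1323 / 1261))) := by gcongr
      _ = ((1261 / 441 : ℝ) ^ 3 * (1323 / 1261)) *
          ((2 : ℝ) ^ J * (1261 / 1323 : ℝ) ^ ((0.63 : ℝ) * J)) := by ring
      _ ≤ 29 * ((2 : ℝ) ^ J * (1261 / 1323 : ℝ) ^ ((0.63 : ℝ) * J)) := by
          apply mul_le_mul_of_nonneg_right (by norm_num) (by positivity)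
  have h6 : (0 : ℝ) < (21 / 20 : ℝ) ^ (-(0.6 : ℝ) * J) := by positivity
  have h7 : (2 : ℝ) ^ J * (1261 / 1323 : ℝ) ^ ((0.63 : ℝ) * J) ≤
      (2 : ℝ) ^ ((0.999 : ℝ) * J) * (21 / 20 : ℝ) ^ (-(0.6 : ℝ) * J) := by
    have h8 : (1261 / 1323 : ℝ) ^ ((0.63 : ℝ) * J) * (21 / 20 : ℝ) ^ ((0.6 : ℝ) * J) ≤
        (2 : ℝ) ^ (-(0.001 : ℝ) * J) := by
      rw [Real.rpow_mul (by norm_num), Real.rpow_mul (by norm_num), Real.rpow_mul (by norm_num),
        Real.rpow_natCast, Real.rpow_natCast, Real.rpow_natCast, ← mul_pow]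
      exact pow_le_pow_left₀ (by positivity) num3 J
    have h9 : (21 / 20 : ℝ) ^ (-(0.6 : ℝ) * J) * (21 / 20 : ℝ) ^ ((0.6 : ℝ) * J) = 1 := by
      rw [← Real.rpow_add (by norm_num)]
      ring_nf
      exact Real.rpow_zero _
    have h10 : (2 : ℝ) ^ ((0.999 : ℝ) * J) = (2 : ℝ) ^ J * (2 : ℝ) ^ (-(0.001 : ℝ) * J) := by
      rw [← Real.rpow_natCast, ← Real.rpow_add (by norm_num)]
      ring_nf
    rw [h10]
    have h11 : (0 : ℝ) < (21 / 20 : ℝ) ^ ((0.6 : ℝ) * J) := by positivity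
    apply le_of_mul_le_mul_right _ h11
    calc (2 : ℝ) ^ J * (1261 / 1323 : ℝ) ^ ((0.63 : ℝ) * J) * (21 / 20 : ℝ) ^ ((0.6 : ℝ) * J)
        = (2 : ℝ) ^ J * ((1261 / 1323 : ℝ) ^ ((0.63 : ℝ) * J) *
            (21 / 20 : ℝ) ^ ((0.6 : ℝ) * J)) := by ring
      _ ≤ (2 : ℝ) ^ J * (2 : ℝ) ^ (-(0.001 : ℝ) * J) := by gcongr
      _ = (2 : ℝ) ^ J * (2 : ℝ) ^ (-(0.001 : ℝ) * J) *
          ((21 / 20 : ℝ) ^ (-(0.6 : ℝ) * J) * (21 / 20 : ℝ) ^ ((0.6 : ℝ) * J)) := by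
          rw [h9, mul_one]
      _ = (2 : ℝ) ^ J * (2 : ℝ) ^ (-(0.001 : ℝ) * J) *
          (21 / 20 : ℝ) ^ (-(0.6 : ℝ) * J) * (21 / 20 : ℝ) ^ ((0.6 : ℝ) * J) := by ring
  have h12 := h1.trans (h2.trans (mul_le_mul_of_nonneg_left h7 (by norm_num)))
  rw [← mul_assoc] at h12
  exact le_of_mul_le_mul_right h12 h6

theorem Z0_strict (G : ℕ) : StrictMono (Z0 G) := by
  apply strictMono_nat_of_lt_succ
  intro Y
  unfold Z0
  have hb0 : 0 < 3 ^ hh G := by positivity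
  rw [Nat.lt_iff_add_one_le, Nat.le_div_iff_mul_le hb0, add_mul, one_mul, mul_add, mul_one]
  have h1 := Nat.div_mul_le_self (2 ^ G * Y) (3 ^ hh G)
  have h2 : 3 ^ hh G ≤ 2 ^ G := three_pow_le G
  omega

theorem Z0_lt (G J Y : ℕ) (hY : Y < 2 ^ J) (i : ℕ) (hi : i < 4) :
    Z0 G Y + i < 3 ^ (hh J + 3) := by
  have hb0 : 0 < 3 ^ hh G := by positivity
  have h1 : Z0 G Y ≤ 3 * Y := by
    unfold Z0
    apply Nat.div_le_of_le_mul
    have h2 : 2 ^ G < 3 ^ (hh G + 1) := two_pow_lt G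
    rw [pow_succ] at h2
    calc 2 ^ G * Y ≤ 3 ^ hh G * 3 * Y := Nat.mul_le_mul_right _ h2.le
      _ = 3 ^ hh G * (3 * Y) := by ring
  have h3 : 2 ^ J < 3 ^ (hh J + 1) := two_pow_lt J
  have h4 : 3 ^ (hh J + 3) = 9 * 3 ^ (hh J + 1) := by
    rw [show hh J + 3 = (hh J + 1) + 2 by ring, pow_add]
    ring
  have h5 : 1 ≤ 2 ^ J := Nat.one_le_two_pow
  omega

theorem bad_card_le (G J : ℕ) :
    ((((range (2 ^ J)).filter (fun Y => ¬ Good G J Y)).card : ℕ) : ℝ) ≤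
      117 * (2 : ℝ) ^ ((0.9992 : ℝ) * J) := by
  have hsub : (range (2 ^ J)).filter (fun Y => ¬ Good G J Y) ⊆
      (range (2 ^ J)).filter (fun Y => 52 * J < 100 * s 2 Y) ∪
        (range 4).biUnion (fun i => (range (2 ^ J)).filter
          (fun Y => 100 * s 3 (Z0 G Y + i) < 60 * J)) := by
    intro Y hY
    rw [Finset.mem_filter] at hY
    obtain ⟨hY1, hY2⟩ := hY
    rw [Finset.mem_union]
    by_cases h : 52 * J < 100 * s 2 Y
    · left
      exact Finset.mem_filter.2 ⟨hY1, h⟩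
    · right
      rw [Finset.mem_biUnion]
      unfold Good at hY2
      push Not at hY2
      obtain ⟨i, hi, hi2⟩ := hY2 (by omega)
      exact ⟨i, Finset.mem_range.2 hi, Finset.mem_filter.2 ⟨hY1, hi2⟩⟩
  have h3 : ∀ i ∈ range 4, ((((range (2 ^ J)).filter
      (fun Y => 100 * s 3 (Z0 G Y + i) < 60 * J)).card : ℕ) : ℝ) ≤
        29 * (2 : ℝ) ^ ((0.9992 : ℝ) * J) := by
    intro i hi
    have hi4 := Finset.mem_range.1 hi
    refine le_trans ?_ ((bad3 J).trans ?_)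
    · have : ((range (2 ^ J)).filter (fun Y => 100 * s 3 (Z0 G Y + i) < 60 * J)).card ≤
          ((range (3 ^ (hh J + 3))).filter (fun Z => 100 * s 3 Z < 60 * J)).card := by
        apply Finset.card_le_card_of_injOn (fun Y => Z0 G Y + i)
        · intro Y hY
          rw [Finset.mem_coe, Finset.mem_filter] at hY
          rw [Finset.mem_coe, Finset.mem_filter]
          exact ⟨Finset.mem_range.2 (Z0_lt G J Y (Finset.mem_range.1 hY.1) i hi4), hY.2⟩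
        · intro Y _ Y' _ h
          have h' : Z0 G Y = Z0 G Y' := by
            have : Z0 G Y + i = Z0 G Y' + i := h
            omega
          exact (Z0_strict G).injective h'
      exact_mod_cast this
    · apply mul_le_mul_of_nonneg_left _ (by norm_num)
      apply Real.rpow_le_rpow_of_exponent_le (by norm_num)
      have : (0 : ℝ) ≤ J := Nat.cast_nonneg _
      nlinarith
  have h4 : ((((range (2 ^ J)).filter (fun Y => ¬ Good G J Y)).card : ℕ) : ℝ) ≤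
      ((((range (2 ^ J)).filter (fun Y => 52 * J < 100 * s 2 Y)).card : ℕ) : ℝ) +
        ∑ i ∈ range 4, ((((range (2 ^ J)).filter
          (fun Y => 100 * s 3 (Z0 G Y + i) < 60 * J)).card : ℕ) : ℝ) := by
    have := (Finset.card_le_card hsub).trans ((Finset.card_union_le _ _).trans
      (Nat.add_le_add_left Finset.card_biUnion_le _))
    exact_mod_cast this
  refine h4.trans ?_
  have h5 := Finset.sum_le_sum h3
  rw [Finset.sum_const, Finset.card_range, nsmul_eq_mul] at h5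
  have h6 := bad2 J
  push_cast at h5
  linarith

theorem bad_card : ∀ᶠ J : ℕ in Filter.atTop, ∀ G : ℕ,
    ((((range (2 ^ J)).filter (fun Y => ¬ Good G J Y)).card : ℕ) : ℝ) ≤
      (2 : ℝ) ^ ((1 - 1 / 2000 : ℝ) * J) := by
  filter_upwards [Filter.eventually_ge_atTop 40000] with J hJ
  intro G
  refine (bad_card_le G J).trans ?_
  have h1 : (117 : ℝ) ≤ (2 : ℝ) ^ ((0.0003 : ℝ) * J) := by
    calc (117 : ℝ) ≤ (2 : ℝ) ^ (12 : ℝ) := by norm_num
      _ ≤ (2 : ℝ) ^ ((0.0003 : ℝ) * J) := by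
          apply Real.rpow_le_rpow_of_exponent_le (by norm_num)
          have : (40000 : ℝ) ≤ J := by exact_mod_cast hJ
          linarith
  calc 117 * (2 : ℝ) ^ ((0.9992 : ℝ) * J)
      ≤ (2 : ℝ) ^ ((0.0003 : ℝ) * J) * (2 : ℝ) ^ ((0.9992 : ℝ) * J) := by gcongr
    _ = (2 : ℝ) ^ ((1 - 1 / 2000 : ℝ) * J) := by
        rw [← Real.rpow_add (by norm_num)]
        ring_nf

end Pool.Agent.Helper78.PS
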