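import Pool.Agent.Helper78.PS.Chern

/-!
# Concentration of the solutions of `s_2 - s_3 = k` on few cells
-/

set_option autoImplicit false

namespace Pool.Agent.Helper78.PS

open Pool.Agent.Helper36.DC Pool.Agent.Helper47.EX Finset

/-- The number of solutions below `2 ^ (G + J)` which lie in good cells. -/
theorem good_count_le (k : ℤ) (G J : ℕ) :
    ((((range (2 ^ (G + J))).filter (fun n => d n = k ∧ Good G J (n / 2 ^ G))).card : ℕ) : ℝ) ≤
      ∑ Y ∈ (range (2 ^ J)).filter (fun Y => Good G J Y), cc k G Y := by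
  have hmap : ∀ n ∈ (range (2 ^ (G + J))).filter (fun n => d n = k ∧ Good G J (n / 2 ^ G)),
      n / 2 ^ G ∈ (range (2 ^ J)).filter (fun Y => Good G J Y) := by
    intro n hn
    rw [Finset.mem_filter] at hn ⊢
    refine ⟨?_, hn.2.2⟩
    rw [Finset.mem_range, Nat.div_lt_iff_lt_mul (by positivity), ← pow_add, add_comm]
    exact Finset.mem_range.1 hn.1
  rw [Finset.card_eq_sum_card_fiberwise hmap]
  push_cast
  apply Finset.sum_le_sum
  intro Y _
  unfold cc
  have : ({n ∈ (range (2 ^ (G + J))).filter (fun n => d n = k ∧ Good G J (n / 2 ^ G)) |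
      n / 2 ^ G = Y}).card ≤ ((range (2 ^ G)).filter (fun u => d (2 ^ G * Y + u) = k)).card := by
    apply Finset.card_le_card_of_injOn (fun n => n % 2 ^ G)
    · intro n hn
      rw [Finset.mem_coe, Finset.mem_filter, Finset.mem_filter] at hn
      obtain ⟨⟨_, hn2, _⟩, hn3⟩ := hn
      rw [Finset.mem_coe, Finset.mem_filter]
      refine ⟨Finset.mem_range.2 (Nat.mod_lt _ (by positivity)), ?_⟩
      show d (2 ^ G * Y + n % 2 ^ G) = k
      rw [← hn3, Nat.div_add_mod]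
      exact hn2
    · intro a ha b hb hab
      rw [Finset.mem_coe, Finset.mem_filter] at ha hb
      have h1 : a % 2 ^ G = b % 2 ^ G := hab
      have h2 : a / 2 ^ G = b / 2 ^ G := ha.2.trans hb.2.symm
      rw [← Nat.div_add_mod a (2 ^ G), ← Nat.div_add_mod b (2 ^ G), h1, h2]
  exact_mod_cast this

theorem rpow_x_le (x : ℝ) (hx : 6 / 5 ≤ x) (J : ℕ) :
    x ^ (-(0.08 : ℝ) * J) ≤ (2 : ℝ) ^ (-(0.021 : ℝ) * J) := by
  have h1 : (6 / 5 : ℝ) ^ (-(0.08 : ℝ)) ≤ (2 : ℝ) ^ (-(0.021 : ℝ)) := by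
    have h2 : ((6 / 5 : ℝ) ^ (-(0.08 : ℝ))) ^ 1000 = ((6 / 5 : ℝ) ^ 80)⁻¹ := by
      rw [← Real.rpow_natCast, ← Real.rpow_mul (by norm_num), ← Real.rpow_natCast (6 / 5) 80,
        ← Real.rpow_neg (by norm_num)]
      norm_num
    have h3 : ((2 : ℝ) ^ (-(0.021 : ℝ))) ^ 1000 = ((2 : ℝ) ^ 21)⁻¹ := by
      rw [← Real.rpow_natCast, ← Real.rpow_mul (by norm_num), ← Real.rpow_natCast 2 21,
        ← Real.rpow_neg (by norm_num)]
      norm_num
    have h4 : ((6 / 5 : ℝ) ^ 80)⁻¹ ≤ ((2 : ℝ) ^ 21)⁻¹ := by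
      apply inv_anti₀ (by positivity)
      norm_num
    rw [← h2, ← h3] at h4
    exact (pow_le_pow_iff_left₀ (by positivity) (by positivity) (by norm_num)).1 h4
  have hx0 : 0 < x := by linarith
  rw [Real.rpow_mul hx0.le, Real.rpow_mul (by norm_num), Real.rpow_natCast, Real.rpow_natCast]
  apply pow_le_pow_left₀ (by positivity)
  refine le_trans ?_ h1
  exact Real.rpow_le_rpow_of_nonpos (by norm_num) hx (by norm_num)

theorem conc (x0 : ℝ) (hx0 : 1 < x0) (hx1 : x0 < 13 / 10) (hmin : ∀ x : ℝ, 0 < x → H x0 ≤ H x)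
    (hH0 : 0.9815 < H x0) (hH1 : H x0 < 0.9816)
    (hder : ∀ c : ℝ, 0 < c → ∃ δ : ℝ, 0 < δ ∧ δ < 1 ∧
      1 ≤ x0 * Real.exp (-δ) ∧ x0 * Real.exp δ ≤ 13 / 10 ∧
      H (x0 * Real.exp δ) ≤ H x0 + c * δ ∧ H (x0 * Real.exp (-δ)) ≤ H x0 + c * δ)
    (k : ℤ) (A : ℝ) (hA : 0 ≤ A) : ∀ᶠ J : ℕ in Filter.atTop, ∀ G : ℕ, (G : ℝ) ≤ A * J →
      ((((range (2 ^ (G + J))).filter (fun n => d n = k ∧ Good G J (n / 2 ^ G))).card : ℕ) : ℝ) ≤
        (2 : ℝ) ^ (-(1 / 1000 : ℝ) * J) *
          ((((range (2 ^ (G + J))).filter (fun n => d n = k)).card : ℕ) : ℝ) := by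
  have hpos : 0 < x0 := by linarith
  have hx65 := x0_gt x0 hx0 hmin
  set η : ℝ := H x0 with hη
  set ε : ℝ := 1 / (2000 * (A + 1)) with hε
  have hA1 : 0 < A + 1 := by linarith
  have hε0 : 0 < ε := by positivity
  have hεA : ε * (A + 1) = 1 / 2000 := by
    rw [hε]
    field_simp
  obtain ⟨K, hK1, hK⟩ := cell_bound x0 hx0.le hx1.le (by linarith) ε hε0
  have hlow := lower_count x0 hx0 hx1 (by linarith) (by linarith) hder k 1 one_pos ε hε0
  obtain ⟨N0, hN0⟩ := Filter.eventually_atTop.1 hlow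
  set W : ℝ := 8 * x0 ^ (-k) * K with hW
  have hW0 : 0 < W := by
    have : 0 < x0 ^ (-k) := zpow_pos hpos _
    positivity
  have hev : ∀ᶠ J : ℕ in Filter.atTop, W ≤ (2 : ℝ) ^ ((0.0005 : ℝ) * J) := by
    have h1 : Filter.Tendsto (fun J : ℕ => (0.0005 : ℝ) * (J : ℝ)) Filter.atTop Filter.atTop :=
      Filter.Tendsto.const_mul_atTop (by norm_num) tendsto_natCast_atTop_atTop
    have h2 : Filter.Tendsto (fun J : ℕ => Real.exp (Real.log 2 * ((0.0005 : ℝ) * (J : ℝ))))
        Filter.atTop Filter.atTop :=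
      Real.tendsto_exp_atTop.comp (Filter.Tendsto.const_mul_atTop (Real.log_pos (by norm_num)) h1)
    filter_upwards [h2.eventually_ge_atTop W] with J hJ
    rw [Real.rpow_def_of_pos (by norm_num)]
    exact hJ
  filter_upwards [hev, Filter.eventually_ge_atTop (N0 + 1)] with J hJ1 hJ2
  intro G hG
  have hJ0 : (0 : ℝ) ≤ J := Nat.cast_nonneg _
  have hG0 : (0 : ℝ) ≤ G := Nat.cast_nonneg _
  -- upper bound for the number of solutions in good cells
  have hup : ((((range (2 ^ (G + J))).filter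
      (fun n => d n = k ∧ Good G J (n / 2 ^ G))).card : ℕ) : ℝ) ≤
        (2 : ℝ) ^ J * (4 * x0 ^ (-k) * ((2 : ℝ) ^ (-(0.021 : ℝ) * J) *
          (K * (2 : ℝ) ^ ((G : ℝ) * (η + ε))))) := by
    refine (good_count_le k G J).trans ?_
    have hxk : 0 < x0 ^ (-k) := zpow_pos hpos _
    set T : ℝ := 4 * x0 ^ (-k) * ((2 : ℝ) ^ (-(0.021 : ℝ) * J) *
          (K * (2 : ℝ) ^ ((G : ℝ) * (η + ε)))) with hT
    have hT0 : 0 ≤ T := by positivity
    calc ∑ Y ∈ (range (2 ^ J)).filter (fun Y => Good G J Y), cc k G Y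
        ≤ ∑ Y ∈ (range (2 ^ J)).filter (fun Y => Good G J Y), T := by
          apply Finset.sum_le_sum
          intro Y hY
          have hg := (Finset.mem_filter.1 hY).2
          refine (good_le x0 hx0.le k G J Y hg _ (fun Z => hK G Y Z) (by positivity)).trans ?_
          rw [hT]
          have := rpow_x_le x0 hx65.le J
          gcongr
      _ ≤ ∑ Y ∈ range (2 ^ J), T := by
          apply Finset.sum_le_sum_of_subset_of_nonneg (Finset.filter_subset _ _)
          intros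
          exact hT0
      _ = (2 : ℝ) ^ J * T := by
          rw [Finset.sum_const, Finset.card_range, nsmul_eq_mul]
          push_cast
          rfl
  -- lower bound for the total number of solutions
  have htot : (2 : ℝ) ^ (((G : ℝ) + J - 1) * (η - ε)) ≤
      ((((range (2 ^ (G + J))).filter (fun n => d n = k)).card : ℕ) : ℝ) := by
    have hJ1' : 1 ≤ J := by omega
    have hbig : N0 ≤ 2 ^ (G + J - 1) := by
      calc N0 ≤ G + J - 1 := by omega
        _ ≤ 2 ^ (G + J - 1) := Nat.lt_two_pow_self.le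
    have h1 := hN0 _ hbig
    have h2 : (((2 ^ (G + J - 1) : ℕ) : ℝ)) ^ (H x0 - ε) =
        (2 : ℝ) ^ (((G : ℝ) + J - 1) * (η - ε)) := by
      push_cast
      rw [← Real.rpow_natCast, ← Real.rpow_mul (by norm_num), Nat.cast_sub (by omega)]
      push_cast
      rfl
    rw [h2] at h1
    refine h1.trans ?_
    have h3 : (Finset.Ico (2 ^ (G + J - 1)) ⌈(1 + 1) * ((2 ^ (G + J - 1) : ℕ) : ℝ)⌉₊) ⊆
        range (2 ^ (G + J)) := by
      intro i hi
      rw [Finset.mem_Ico] at hi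
      rw [Finset.mem_range]
      have h4 : (1 + 1 : ℝ) * ((2 ^ (G + J - 1) : ℕ) : ℝ) = ((2 ^ (G + J) : ℕ) : ℝ) := by
        have h5 : 2 ^ (G + J) = 2 * 2 ^ (G + J - 1) := by
          rw [← pow_succ']
          congr 1
          omega
        rw [h5]
        push_cast
        ring
      rw [h4, Nat.ceil_natCast] at hi
      exact hi.2
    exact_mod_cast Finset.card_le_card (Finset.filter_subset_filter _ h3)
  refine hup.trans ?_
  have hstep : (2 : ℝ) ^ J * (4 * x0 ^ (-k) * ((2 : ℝ) ^ (-(0.021 : ℝ) * J) *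
          (K * (2 : ℝ) ^ ((G : ℝ) * (η + ε))))) ≤
      (2 : ℝ) ^ (-(1 / 1000 : ℝ) * J) * (2 : ℝ) ^ (((G : ℝ) + J - 1) * (η - ε)) := by
    have e1 : (2 : ℝ) ^ J * (4 * x0 ^ (-k) * ((2 : ℝ) ^ (-(0.021 : ℝ) * J) *
          (K * (2 : ℝ) ^ ((G : ℝ) * (η + ε))))) =
        W * (2 : ℝ) ^ ((J : ℝ) + (-(0.021 : ℝ) * J) + (G : ℝ) * (η + ε) + (-1)) := by
      rw [Real.rpow_add (by norm_num), Real.rpow_add (by norm_num), Real.rpow_add (by norm_num),
        Real.rpow_natCast, Real.rpow_neg_one, hW]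
      ring
    rw [e1, ← Real.rpow_add (by norm_num)]
    calc W * (2 : ℝ) ^ ((J : ℝ) + (-(0.021 : ℝ) * J) + (G : ℝ) * (η + ε) + (-1))
        ≤ (2 : ℝ) ^ ((0.0005 : ℝ) * J) *
          (2 : ℝ) ^ ((J : ℝ) + (-(0.021 : ℝ) * J) + (G : ℝ) * (η + ε) + (-1)) := by gcongr
      _ = (2 : ℝ) ^ ((0.0005 : ℝ) * J +
          ((J : ℝ) + (-(0.021 : ℝ) * J) + (G : ℝ) * (η + ε) + (-1))) := by
          rw [← Real.rpow_add (by norm_num)]
      _ ≤ (2 : ℝ) ^ (-(1 / 1000 : ℝ) * J + ((G : ℝ) + J - 1) * (η - ε)) := by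
          apply Real.rpow_le_rpow_of_exponent_le (by norm_num)
          have h5 : ε * G ≤ 1 / 2000 * J := by
            calc ε * G ≤ ε * (A * J) := by gcongr
              _ ≤ ε * ((A + 1) * J) := by
                  apply mul_le_mul_of_nonneg_left _ hε0.le
                  nlinarith
              _ = 1 / 2000 * J := by rw [← mul_assoc, hεA]
          have h6 : ε ≤ 1 / 2000 := by
            rw [hε, div_le_div_iff₀ (by positivity) (by norm_num)]
            nlinarith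
          have h7 : ε * J ≤ 1 / 2000 * J := by gcongr
          have h8 : (0.9815 : ℝ) * J ≤ η * J := by gcongr
          nlinarith
  refine hstep.trans ?_
  apply mul_le_mul_of_nonneg_left htot (by positivity)

end Pool.Agent.Helper78.PS
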