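import Pool.Agent.Helper78.PS.Main

/-!
# No asymptotic formula with a power saving
-/

set_option autoImplicit false

namespace Pool.Agent.Helper78.PS

open Pool.Agent.Helper36.DC Pool.Agent.Helper47.EX Finset Filter Topology

/-- The number of solutions of `s_2 - s_3 = k` below `N`. -/
noncomputable def ff (k : ℤ) (N : ℕ) : ℝ :=
  ((((range N).filter (fun n => d n = k)).card : ℕ) : ℝ)

theorem ff_nonneg (k : ℤ) (N : ℕ) : 0 ≤ ff k N := Nat.cast_nonneg _

theorem ff_sub (k : ℤ) (a b : ℕ) (h : a ≤ b) :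
    ff k b - ff k a = ((((Finset.Ico a b).filter (fun n => d n = k)).card : ℕ) : ℝ) := by
  unfold ff
  have h1 : (range b).filter (fun n => d n = k) =
      (range a).filter (fun n => d n = k) ∪
        (Finset.Ico a b).filter (fun n => d n = k) := by
    ext n
    simp only [Finset.mem_union, Finset.mem_filter, Finset.mem_range, Finset.mem_Ico]
    constructor
    · rintro ⟨h2, h3⟩
      rcases lt_or_ge n a with h4 | h4
      · exact Or.inl ⟨h4, h3⟩
      · exact Or.inr ⟨⟨h4, h2⟩, h3⟩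
    · rintro (⟨h2, h3⟩ | ⟨⟨h2, h4⟩, h3⟩)
      · exact ⟨by omega, h3⟩
      · exact ⟨h4, h3⟩
  have h2 : Disjoint ((range a).filter (fun n => d n = k))
      ((Finset.Ico a b).filter (fun n => d n = k)) := by
    rw [Finset.disjoint_left]
    intro n h3 h4
    have h5 := Finset.mem_range.1 (Finset.mem_filter.1 h3).1
    have h6 := (Finset.mem_Ico.1 (Finset.mem_filter.1 h4).1).1
    omega
  rw [h1, Finset.card_union_of_disjoint h2]
  push_cast
  ring

/-- Tangent inequality for the concave function `t ^ η`. -/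
theorem rpow_sub_ge (η a b : ℝ) (h0 : 0 ≤ η) (h1 : η ≤ 1) (hb : 0 ≤ b) (hab : b < a) :
    η * (a ^ η / a) * (a - b) ≤ a ^ η - b ^ η := by
  have ha : 0 < a := lt_of_le_of_lt hb hab
  have h2 : -1 ≤ (b - a) / a := by
    rw [le_div_iff₀ ha]
    linarith
  have h3 := rpow_one_add_le_one_add_mul_self h2 h0 h1
  have h4 : b = a * (1 + (b - a) / a) := by
    field_simp
    ring
  have h5 : b ^ η = a ^ η * (1 + (b - a) / a) ^ η := by
    conv_lhs => rw [h4]
    exact Real.mul_rpow ha.le (by linarith)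
  have h6 : 0 < a ^ η := Real.rpow_pos_of_pos ha _
  have h7 : a ^ η * (1 + (b - a) / a) ^ η ≤ a ^ η * (1 + η * ((b - a) / a)) :=
    mul_le_mul_of_nonneg_left h3 h6.le
  have h8 : a ^ η * (1 + η * ((b - a) / a)) = a ^ η - η * (a ^ η / a) * (a - b) := by
    field_simp
    ring
  rw [h5]
  linarith

/-- A lower bound in all upper cells gives many collisions outside any small set of cells. -/
theorem outside_ge (k : ℤ) (G J : ℕ) (S : Finset ℕ) (B : ℝ) (hB : 0 ≤ B)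
    (hcell : ∀ Y, 2 ^ (J - 1) ≤ Y → Y < 2 ^ J → B ≤ ff k (2 ^ G * (Y + 1)) - ff k (2 ^ G * Y))
    (hJ : 1 ≤ J) :
    ((2 : ℝ) ^ (J - 1) - (S.card : ℝ)) * B ≤
      ((((range (2 ^ (G + J))).filter (fun n => d n = k ∧ n / 2 ^ G ∉ S)).card : ℕ) : ℝ) := by
  set T := Finset.Ico (2 ^ (J - 1)) (2 ^ J) \ S with hT
  have hTc : (2 : ℝ) ^ (J - 1) - (S.card : ℝ) ≤ (T.card : ℝ) := by
    have h1 : (Finset.Ico (2 ^ (J - 1)) (2 ^ J)).card ≤ T.card + S.card := by
      rw [hT]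
      exact Finset.card_le_card_sdiff_add_card
    rw [Nat.card_Ico] at h1
    have h2 : 2 ^ J = 2 ^ (J - 1) + 2 ^ (J - 1) := by
      rw [← two_mul, ← pow_succ']
      congr 1
      omega
    rw [h2, Nat.add_sub_cancel] at h1
    have h3 : ((2 ^ (J - 1) : ℕ) : ℝ) ≤ (T.card : ℝ) + (S.card : ℝ) := by exact_mod_cast h1
    push_cast at h3
    linarith
  have hdisj : (T : Set ℕ).PairwiseDisjoint (fun Y => (Finset.Ico (2 ^ G * Y)
      (2 ^ G * (Y + 1))).filter (fun n => d n = k)) := by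
    intro Y _ Y' _ hne
    rw [Function.onFun, Finset.disjoint_left]
    intro n h1 h2
    have h3 := Finset.mem_Ico.1 (Finset.mem_filter.1 h1).1
    have h4 := Finset.mem_Ico.1 (Finset.mem_filter.1 h2).1
    apply hne
    have h5 : n / 2 ^ G = Y := by
      rw [Nat.div_eq_iff (by positivity)]
      constructor
      · rw [mul_comm]; exact h3.1
      · have := h3.2
        rw [mul_comm (2 ^ G), add_mul, one_mul] at this
        omega
    have h6 : n / 2 ^ G = Y' := by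
      rw [Nat.div_eq_iff (by positivity)]
      constructor
      · rw [mul_comm]; exact h4.1
      · have := h4.2
        rw [mul_comm (2 ^ G), add_mul, one_mul] at this
        omega
    exact h5.symm.trans h6
  have hsub : T.biUnion (fun Y => (Finset.Ico (2 ^ G * Y)
      (2 ^ G * (Y + 1))).filter (fun n => d n = k)) ⊆
      (range (2 ^ (G + J))).filter (fun n => d n = k ∧ n / 2 ^ G ∉ S) := by
    intro n hn
    rw [Finset.mem_biUnion] at hn
    obtain ⟨Y, hY, hn⟩ := hn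
    rw [Finset.mem_filter, Finset.mem_Ico] at hn
    rw [hT, Finset.mem_sdiff, Finset.mem_Ico] at hY
    have h5 : n / 2 ^ G = Y := by
      rw [Nat.div_eq_iff (by positivity)]
      constructor
      · rw [mul_comm]; exact hn.1.1
      · have := hn.1.2
        rw [mul_comm (2 ^ G), add_mul, one_mul] at this
        omega
    rw [Finset.mem_filter, Finset.mem_range]
    refine ⟨?_, hn.2, ?_⟩
    · calc n < 2 ^ G * (Y + 1) := hn.1.2
        _ ≤ 2 ^ G * 2 ^ J := Nat.mul_le_mul_left _ (by omega)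
        _ = 2 ^ (G + J) := (pow_add _ _ _).symm
    · rw [h5]
      exact hY.2
  have hcard := Finset.card_le_card hsub
  rw [Finset.card_biUnion hdisj] at hcard
  have hcard' : ∑ Y ∈ T, ((((Finset.Ico (2 ^ G * Y)
      (2 ^ G * (Y + 1))).filter (fun n => d n = k)).card : ℕ) : ℝ) ≤
      ((((range (2 ^ (G + J))).filter (fun n => d n = k ∧ n / 2 ^ G ∉ S)).card : ℕ) : ℝ) := by
    exact_mod_cast hcard
  refine le_trans ?_ hcard'
  calc ((2 : ℝ) ^ (J - 1) - (S.card : ℝ)) * B ≤ (T.card : ℝ) * B :=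
        mul_le_mul_of_nonneg_right hTc hB
    _ = ∑ Y ∈ T, B := by rw [Finset.sum_const, nsmul_eq_mul]
    _ ≤ _ := by
        apply Finset.sum_le_sum
        intro Y hY
        rw [hT, Finset.mem_sdiff, Finset.mem_Ico] at hY
        rw [← ff_sub _ _ _ (Nat.mul_le_mul_left _ (Nat.le_succ Y))]
        exact hcell Y hY.1.1 hY.1.2

theorem tendsto_two_rpow_neg (a : ℝ) (ha : 0 < a) (ε : ℝ) (hε : 0 < ε) :
    ∀ᶠ J : ℕ in atTop, (2 : ℝ) ^ (-(a * (J : ℝ))) ≤ ε := by
  have h1 : Tendsto (fun J : ℕ => Real.log 2 * (a * (J : ℝ))) atTop atTop :=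
    Tendsto.const_mul_atTop (Real.log_pos (by norm_num))
      (Tendsto.const_mul_atTop ha tendsto_natCast_atTop_atTop)
  have h2 : Tendsto (fun J : ℕ => Real.exp (-(Real.log 2 * (a * (J : ℝ))))) atTop (𝓝 0) :=
    Real.tendsto_exp_neg_atTop_nhds_zero.comp h1
  filter_upwards [h2.eventually_le_const hε] with J hJ
  rw [Real.rpow_def_of_pos (by norm_num)]
  refine le_trans (le_of_eq ?_) hJ
  congr 1
  ring

/-- The main contradiction. -/
theorem no_power_saving_aux (k : ℤ) (c η δ M : ℝ) (hc : 0 < c) (hη0 : 0 < η) (hη1 : η < 1)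
    (hδ : 0 < δ) (hδη : δ ≤ η) (hM : 0 ≤ M)
    (hO : ∀ᶠ N : ℕ in atTop, |ff k N - c * (N : ℝ) ^ η| ≤ M * (N : ℝ) ^ (η - δ))
    (hconc : ∀ A : ℝ, 0 ≤ A → ∀ᶠ J : ℕ in atTop, ∀ G : ℕ, (G : ℝ) ≤ A * J →
      ∃ S : Finset ℕ, (S.card : ℝ) ≤ (2 : ℝ) ^ ((1 - 1 / 2000 : ℝ) * J) ∧
        ((((range (2 ^ (G + J))).filter (fun n => d n = k ∧ n / 2 ^ G ∉ S)).card : ℕ) : ℝ) ≤
          (2 : ℝ) ^ (-(1 / 1000 : ℝ) * J) * ff k (2 ^ (G + J))) : False := by
  obtain ⟨N1, hN1⟩ := eventually_atTop.1 hO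
  have hA : 0 ≤ 4 / δ + 1 := by positivity
  have hcη : 0 < c * η := mul_pos hc hη0
  have e1 := tendsto_two_rpow_neg 1 one_pos (c * η / (4 * (M + 1))) (by positivity)
  have e2 := tendsto_two_rpow_neg (1 / 1000) (by norm_num) (c * η / (16 * (c + M + 1)))
    (by positivity)
  have e3 := tendsto_two_rpow_neg (1 / 2000) (by norm_num) (1 / 4) (by norm_num)
  obtain ⟨J, hJ1, hJ2, hJ3, hJ4, hJ5⟩ := ((hconc _ hA).and (e1.and (e2.and (e3.and
    (eventually_ge_atTop (N1 + 1)))))).exists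
  have hJpos : 1 ≤ J := by omega
  have hJR : (1 : ℝ) ≤ J := by exact_mod_cast hJpos
  set G : ℕ := ⌈2 * (J : ℝ) / δ⌉₊ with hG
  have hG1 : 2 * (J : ℝ) / δ ≤ G := Nat.le_ceil _
  have hG2 : (G : ℝ) < 2 * (J : ℝ) / δ + 1 := Nat.ceil_lt_add_one (by positivity)
  have hGA : (G : ℝ) ≤ (4 / δ + 1) * J := by
    have h1 : (4 / δ + 1) * J = 2 * (J : ℝ) / δ + 2 * (J : ℝ) / δ + J := by ring
    have h2 : 0 ≤ 2 * (J : ℝ) / δ := by positivity
    linarith
  obtain ⟨S, hS1, hS2⟩ := hJ1 G hGA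
  have hδG : 2 * (J : ℝ) ≤ δ * (G : ℝ) := by
    rw [div_le_iff₀ hδ] at hG1
    linarith
  -- abbreviations
  set P : ℝ := (2 : ℝ) ^ (((G : ℝ) + J) * η) with hP
  have hP0 : 0 < P := by positivity
  have hNpow : ∀ t : ℝ, (((2 ^ (G + J) : ℕ) : ℝ)) ^ t = (2 : ℝ) ^ (((G : ℝ) + J) * t) := by
    intro t
    push_cast
    rw [← Real.rpow_natCast, ← Real.rpow_mul (by norm_num)]
    push_cast
    rfl
  have hsmall : (2 : ℝ) ^ (((G : ℝ) + J) * (η - δ)) ≤ P * (2 : ℝ) ^ (-(2 * (J : ℝ))) := by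
    rw [hP, ← Real.rpow_add (by norm_num)]
    apply Real.rpow_le_rpow_of_exponent_le (by norm_num)
    have : 0 ≤ δ * J := by positivity
    nlinarith
  -- lower bound for a cell
  have hcell : ∀ Y, 2 ^ (J - 1) ≤ Y → Y < 2 ^ J →
      c * η / 2 * (P * (2 : ℝ) ^ (-(J : ℝ))) ≤ ff k (2 ^ G * (Y + 1)) - ff k (2 ^ G * Y) := by
    intro Y hY1 hY2
    have hge : N1 ≤ 2 ^ G * Y := by
      calc N1 ≤ J - 1 := by omega
        _ ≤ 2 ^ (J - 1) := Nat.lt_two_pow_self.le
        _ ≤ Y := hY1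
        _ = 1 * Y := (one_mul _).symm
        _ ≤ 2 ^ G * Y := Nat.mul_le_mul_right _ Nat.one_le_two_pow
    have hge2 : N1 ≤ 2 ^ G * (Y + 1) := hge.trans (Nat.mul_le_mul_left _ (Nat.le_succ Y))
    have hYpos : 0 < Y := lt_of_lt_of_le (by positivity) hY1
    have hle : 2 ^ G * (Y + 1) ≤ 2 ^ (G + J) := by
      rw [pow_add]
      exact Nat.mul_le_mul_left _ (by omega)
    have hle' : 2 ^ G * Y ≤ 2 ^ (G + J) := (Nat.mul_le_mul_left _ (Nat.le_succ Y)).trans hle
    have a1 := (abs_le.1 (hN1 _ hge2)).1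
    have a2 := (abs_le.1 (hN1 _ hge)).2
    set a : ℝ := ((2 ^ G * (Y + 1) : ℕ) : ℝ) with ha
    set b : ℝ := ((2 ^ G * Y : ℕ) : ℝ) with hb
    have hb0 : 0 < b := by
      rw [hb]
      exact_mod_cast Nat.mul_pos (by positivity) hYpos
    have hab : a - b = (2 : ℝ) ^ G := by
      rw [ha, hb]
      push_cast
      ring
    have hab' : b < a := by
      have : (0 : ℝ) < 2 ^ G := by positivity
      linarith
    have ha0 : 0 < a := hb0.trans hab'
    have haN : a ≤ ((2 ^ (G + J) : ℕ) : ℝ) := by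
      rw [ha]
      exact Nat.cast_le.2 hle
    have hN0 : (0 : ℝ) < ((2 ^ (G + J) : ℕ) : ℝ) := by positivity
    have t1 := rpow_sub_ge η a b hη0.le hη1.le hb0.le hab'
    -- `a ^ η / a ≥ N ^ η / N`
    have t2 : (((2 ^ (G + J) : ℕ) : ℝ)) ^ (η - 1) ≤ a ^ η / a := by
      rw [← Real.rpow_sub_one ha0.ne']
      exact Real.rpow_le_rpow_of_nonpos ha0 haN (by linarith)
    have t3 : P * (2 : ℝ) ^ (-(J : ℝ)) ≤ a ^ η / a * (a - b) := by
      rw [hab]
      calc P * (2 : ℝ) ^ (-(J : ℝ)) = (((2 ^ (G + J) : ℕ) : ℝ)) ^ (η - 1) * (2 : ℝ) ^ G := by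
            rw [hNpow, hP, ← Real.rpow_natCast 2 G, ← Real.rpow_add (by norm_num),
              ← Real.rpow_add (by norm_num)]
            ring_nf
        _ ≤ a ^ η / a * (2 : ℝ) ^ G := mul_le_mul_of_nonneg_right t2 (by positivity)
    -- error terms
    have herr : ∀ t : ℝ, 0 ≤ t → t ≤ ((2 ^ (G + J) : ℕ) : ℝ) →
        M * t ^ (η - δ) ≤ M * (P * (2 : ℝ) ^ (-(2 * (J : ℝ)))) := by
      intro t ht0 ht
      apply mul_le_mul_of_nonneg_left _ hM
      calc t ^ (η - δ) ≤ (((2 ^ (G + J) : ℕ) : ℝ)) ^ (η - δ) :=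
            Real.rpow_le_rpow ht0 ht (by linarith)
        _ = (2 : ℝ) ^ (((G : ℝ) + J) * (η - δ)) := hNpow _
        _ ≤ _ := hsmall
    have ea := herr a ha0.le haN
    have eb := herr b hb0.le (hab'.le.trans haN)
    have e4 : (2 : ℝ) ^ (-(2 * (J : ℝ))) = (2 : ℝ) ^ (-(J : ℝ)) * (2 : ℝ) ^ (-(J : ℝ)) := by
      rw [← Real.rpow_add (by norm_num)]
      congr 1
      ring
    have e5 : (2 : ℝ) ^ (-(J : ℝ)) ≤ c * η / (4 * (M + 1)) := by
      rw [one_mul] at hJ2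
      exact hJ2
    set q : ℝ := (2 : ℝ) ^ (-(J : ℝ)) with hq
    have hq0 : 0 < q := by positivity
    have e6 : M * q ≤ c * η / 4 := by
      rw [le_div_iff₀ (by positivity)] at e5
      nlinarith
    have e7 : M * (P * (q * q)) ≤ c * η / 4 * (P * q) := by
      have : M * (P * (q * q)) = M * q * (P * q) := by ring
      rw [this]
      exact mul_le_mul_of_nonneg_right e6 (by positivity)
    rw [e4] at ea eb
    have e8 : c * η * (P * q) ≤ c * (a ^ η - b ^ η) := by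
      calc c * η * (P * q) ≤ c * η * (a ^ η / a * (a - b)) :=
            mul_le_mul_of_nonneg_left t3 hcη.le
        _ = c * (η * (a ^ η / a) * (a - b)) := by ring
        _ ≤ c * (a ^ η - b ^ η) := mul_le_mul_of_nonneg_left t1 hc.le
    linarith
  have hcard := outside_ge k G J S (c * η / 2 * (P * (2 : ℝ) ^ (-(J : ℝ)))) (by positivity)
    hcell hJpos
  have hff : ff k (2 ^ (G + J)) ≤ (c + M) * P := by
    have hge : N1 ≤ 2 ^ (G + J) := by
      calc N1 ≤ G + J := by omega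
        _ ≤ 2 ^ (G + J) := Nat.lt_two_pow_self.le
    have a1 := (abs_le.1 (hN1 _ hge)).2
    rw [hNpow, hNpow] at a1
    have a2 : (2 : ℝ) ^ (((G : ℝ) + J) * (η - δ)) ≤ P := by
      rw [hP]
      apply Real.rpow_le_rpow_of_exponent_le (by norm_num)
      have h3 : (0 : ℝ) ≤ (G : ℝ) + J := by positivity
      nlinarith
    have a3 := mul_le_mul_of_nonneg_left a2 hM
    rw [← hP] at a1
    linarith
  have hSq : (S.card : ℝ) ≤ (2 : ℝ) ^ J / 4 := by
    refine hS1.trans ?_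
    have h3 : (2 : ℝ) ^ ((1 - 1 / 2000 : ℝ) * J) =
        (2 : ℝ) ^ J * (2 : ℝ) ^ (-(1 / 2000 * (J : ℝ))) := by
      rw [← Real.rpow_natCast 2 J, ← Real.rpow_add (by norm_num)]
      congr 1
      ring
    rw [h3]
    have h4 : (2 : ℝ) ^ J * (2 : ℝ) ^ (-(1 / 2000 * (J : ℝ))) ≤ (2 : ℝ) ^ J * (1 / 4) :=
      mul_le_mul_of_nonneg_left hJ4 (by positivity)
    linarith
  have hhalf : (2 : ℝ) ^ (J - 1) = (2 : ℝ) ^ J / 2 := by
    have : (2 : ℝ) ^ J = 2 ^ (J - 1) * 2 := by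
      rw [← pow_succ]
      congr 1
      omega
    rw [this]
    ring
  have hq : (2 : ℝ) ^ J * (2 : ℝ) ^ (-(J : ℝ)) = 1 := by
    rw [← Real.rpow_natCast 2 J, ← Real.rpow_add (by norm_num)]
    simp
  have hlow : c * η / 8 * P ≤ ((2 : ℝ) ^ (J - 1) - (S.card : ℝ)) *
      (c * η / 2 * (P * (2 : ℝ) ^ (-(J : ℝ)))) := by
    have h5 : (2 : ℝ) ^ J / 4 ≤ (2 : ℝ) ^ (J - 1) - (S.card : ℝ) := by
      rw [hhalf]
      linarith
    calc c * η / 8 * P = (2 : ℝ) ^ J * (2 : ℝ) ^ (-(J : ℝ)) * (c * η / 8 * P) := by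
          rw [hq, one_mul]
      _ = (2 : ℝ) ^ J / 4 * (c * η / 2 * (P * (2 : ℝ) ^ (-(J : ℝ)))) := by ring
      _ ≤ _ := mul_le_mul_of_nonneg_right h5 (by positivity)
  have hup : (2 : ℝ) ^ (-(1 / 1000 : ℝ) * J) * ff k (2 ^ (G + J)) ≤ c * η / 16 * P := by
    have h6 : (2 : ℝ) ^ (-(1 / 1000 : ℝ) * J) ≤ c * η / (16 * (c + M + 1)) := by
      have : -(1 / 1000 : ℝ) * J = -(1 / 1000 * (J : ℝ)) := by ring
      rw [this]
      exact hJ3
    calc (2 : ℝ) ^ (-(1 / 1000 : ℝ) * J) * ff k (2 ^ (G + J))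
        ≤ c * η / (16 * (c + M + 1)) * ((c + M) * P) :=
          mul_le_mul h6 hff (ff_nonneg _ _) (by positivity)
      _ ≤ c * η / (16 * (c + M + 1)) * ((c + M + 1) * P) := by
          apply mul_le_mul_of_nonneg_left _ (by positivity)
          nlinarith
      _ = c * η / 16 * P := by
          have : c + M + 1 ≠ 0 := by positivity
          field_simp
  have hpos : 0 < c * η * P := by positivity
  linarith

end Pool.Agent.Helper78.PS
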