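import Pool.Agent.Helper47.EX.Final

/-!
# Uniform upper bounds for the tilted sums over a binary cell
-/

set_option autoImplicit false

namespace Pool.Agent.Helper78.PS

open Pool.Agent.Helper36.DC Pool.Agent.Helper47.EX Finset

/-- The minimiser of the free energy is larger than `6 / 5`. -/
theorem x0_gt (x0 : ℝ) (h1 : 1 < x0) (hmin : ∀ x : ℝ, 0 < x → H x0 ≤ H x) :
    6 / 5 < x0 := by
  have hpos : 0 < x0 := by linarith
  have hD : Pool.Agent.Helper25.EX.DH x0 = 0 := by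
    apply Pool.Agent.Helper25.EX.DH_zero hpos
    filter_upwards [lt_mem_nhds hpos] with y hy using hmin y hy
  by_contra hle
  have hle : x0 ≤ 6 / 5 := not_lt.1 hle
  have h2 := Pool.Agent.Helper25.EX.log2_pos
  have h3 := Pool.Agent.Helper25.EX.log3_pos
  have a1 : Real.log (3 : ℝ) / Real.log 2 < (8 : ℕ) / (5 : ℕ) :=
    Pool.Agent.Helper25.EX.lt_of_pow (by norm_num) (by norm_num) (by norm_num) (by norm_num)
  rw [div_lt_div_iff₀ h2 (by norm_num)] at a1
  push_cast at a1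
  unfold Pool.Agent.Helper25.EX.DH at hD
  have e1 : x0 / (1 + x0) * Real.log 3 = (x0 + 2) / (x0 ^ 2 + x0 + 1) * Real.log 2 := by
    have e2 : x0 / (1 + x0) / Real.log 2 = (x0 + 2) / (x0 ^ 2 + x0 + 1) / Real.log 3 := by
      linarith
    have hq : 0 < x0 ^ 2 + x0 + 1 := by positivity
    rw [div_div, div_div, div_eq_div_iff (by positivity) (by positivity)] at e2
    rw [div_mul_eq_mul_div, div_mul_eq_mul_div, div_eq_div_iff (by positivity) (by positivity)]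
    linarith
  have b1 : x0 / (1 + x0) ≤ 6 / 11 := by
    rw [div_le_div_iff₀ (by positivity) (by norm_num)]
    linarith
  have b2 : 80 / 91 ≤ (x0 + 2) / (x0 ^ 2 + x0 + 1) := by
    rw [div_le_div_iff₀ (by norm_num) (by positivity)]
    nlinarith
  have c1 : x0 / (1 + x0) * Real.log 3 ≤ 6 / 11 * Real.log 3 :=
    mul_le_mul_of_nonneg_right b1 h3.le
  have c2 : 80 / 91 * Real.log 2 ≤ (x0 + 2) / (x0 ^ 2 + x0 + 1) * Real.log 2 :=
    mul_le_mul_of_nonneg_right b2 h2.le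
  linarith

theorem hh_mono {a b : ℕ} (h : a ≤ b) : hh a ≤ hh b := by
  unfold hh
  exact Nat.log_mono_right (Nat.pow_le_pow_right (by norm_num) h)

theorem hh_add_le (a r : ℕ) : hh (a + r) ≤ hh a + r := by
  have h1 : 3 ^ hh (a + r) ≤ 2 ^ (a + r) := three_pow_le (a + r)
  have h2 : 2 ^ a < 3 ^ (hh a + 1) := two_pow_lt a
  have h3 : 3 ^ hh (a + r) < 3 ^ (hh a + 1 + r) := by
    calc 3 ^ hh (a + r) ≤ 2 ^ (a + r) := h1
      _ = 2 ^ a * 2 ^ r := pow_add _ _ _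
      _ ≤ 2 ^ a * 3 ^ r := Nat.mul_le_mul_left _ (Nat.pow_le_pow_left (by norm_num) r)
      _ < 3 ^ (hh a + 1) * 3 ^ r := Nat.mul_lt_mul_of_pos_right h2 (by positivity)
      _ = 3 ^ (hh a + 1 + r) := (pow_add _ _ _).symm
  have h4 := (Nat.pow_lt_pow_iff_right (by norm_num : 1 < 3)).1 h3
  omega

theorem SOv_trivial (x : ℝ) (hx : 1 ≤ x) (hx1 : x ≤ 13 / 10) (G Y Z : ℕ) :
    SOv x 0 0 G (hh G) Y Z ≤ 8 ^ G := by
  have hx0 : 0 < x := by linarith
  unfold SOv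
  calc (∑ u ∈ range (2 ^ G), ∑ v ∈ range (3 ^ hh G),
        if Ov 0 0 (2 ^ G * Y + u) (3 ^ hh G * Z + v) then x ^ (s 2 u) / x ^ (s 3 v) else 0)
      ≤ ∑ u ∈ range (2 ^ G), ∑ v ∈ range (3 ^ hh G), (2 : ℝ) ^ G := by
        apply Finset.sum_le_sum
        intro u hu
        apply Finset.sum_le_sum
        intro v _
        have hu' : u < 2 ^ G := Finset.mem_range.1 hu
        split_ifs
        · have h1 : s 2 u ≤ G := by simpa using s_le 2 G u (by norm_num) hu'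
          have h2 : x ^ (s 2 u) ≤ x ^ G := pow_le_pow_right₀ hx h1
          have h3 : x ^ G ≤ (2 : ℝ) ^ G := pow_le_pow_left₀ hx0.le (by linarith) G
          have h4 : 1 ≤ x ^ (s 3 v) := one_le_pow₀ hx
          rw [div_le_iff₀ (by positivity)]
          have h5 : (0 : ℝ) < 2 ^ G := by positivity
          nlinarith
        · positivity
    _ = 2 ^ G * (3 ^ hh G * 2 ^ G) := by
        rw [Finset.sum_const, Finset.sum_const, Finset.card_range, Finset.card_range,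
          nsmul_eq_mul, nsmul_eq_mul]
        push_cast
        ring
    _ ≤ 2 ^ G * (2 ^ G * 2 ^ G) := by
        have h1 : (3 : ℝ) ^ hh G ≤ 2 ^ G := by exact_mod_cast three_pow_le G
        gcongr
    _ = 8 ^ G := by
        rw [← mul_pow, ← mul_pow]
        norm_num

theorem cell_bound (x : ℝ) (hx : 1 ≤ x) (hx1 : x ≤ 13 / 10) (hH : 0 ≤ H x) (ε : ℝ) (hε : 0 < ε) :
    ∃ K : ℝ, 1 ≤ K ∧ ∀ G Y Z : ℕ, SOv x 0 0 G (hh G) Y Z ≤ K * (2 : ℝ) ^ ((G : ℝ) * (H x + ε)) := by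
  have hx0 : 0 < x := by linarith
  obtain ⟨C, hC1, hC⟩ := Inputs.upper_main x hx hx1
  obtain ⟨m, hm⟩ := exists_nat_ge (Real.logb 2 C / ε + 1)
  have hlogC : 0 ≤ Real.logb 2 C := Real.logb_nonneg (by norm_num) hC1
  have hm1 : 1 ≤ m := by
    have h0 : 0 ≤ Real.logb 2 C / ε := by positivity
    have : (1 : ℝ) ≤ m := by linarith
    exact_mod_cast this
  have hCm : C ≤ (2 : ℝ) ^ ((m : ℝ) * ε) := by
    rw [← Real.logb_le_iff_le_rpow (by norm_num) (by linarith)]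
    have h1 : Real.logb 2 C / ε ≤ m := by linarith
    rw [div_le_iff₀ hε] at h1
    linarith
  obtain ⟨n0, hn0⟩ := hC m hm1
  set K : ℝ := 8 ^ ((n0 + 1) * m) * (12 ^ m) with hK
  have hK8 : (1 : ℝ) ≤ 8 ^ ((n0 + 1) * m) := one_le_pow₀ (by norm_num)
  have hK12 : (1 : ℝ) ≤ 12 ^ m := one_le_pow₀ (by norm_num)
  have hK1 : 1 ≤ K := by
    rw [hK]
    nlinarith
  refine ⟨K, hK1, ?_⟩
  intro G Y Z
  have hexp : 1 ≤ (2 : ℝ) ^ ((G : ℝ) * (H x + ε)) :=
    Real.one_le_rpow (by norm_num) (by positivity)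
  by_cases hG : G < (n0 + 1) * m
  · -- small level
    calc SOv x 0 0 G (hh G) Y Z ≤ 8 ^ G := SOv_trivial x hx hx1 G Y Z
      _ ≤ 8 ^ ((n0 + 1) * m) := pow_le_pow_right₀ (by norm_num) hG.le
      _ ≤ K := by
          rw [hK]
          nlinarith
      _ ≤ K * (2 : ℝ) ^ ((G : ℝ) * (H x + ε)) := by nlinarith
  · have hG' : (n0 + 1) * m ≤ G := not_lt.1 hG
    set n := G / m with hn
    set r := G % m with hr
    have hGn : m * n + r = G := Nat.div_add_mod G m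
    have hrm : r < m := Nat.mod_lt _ hm1
    have hnn : n0 ≤ n := by
      have : n0 + 1 ≤ G / m := (Nat.le_div_iff_mul_le hm1).2 hG'
      omega
    have hnm : n * m + r = G := by rw [mul_comm]; exact hGn
    set w := hh G - hh (n * m) with hw
    have hmono : hh (n * m) ≤ hh G := hh_mono (by omega)
    have hwr : w ≤ r := by
      have := hh_add_le (n * m) r
      rw [hnm] at this
      omega
    have hhG : hh (n * m) + w = hh G := by omega
    have hblock := Pool.Agent.Helper59.EX.SOv_block x 0 0 (n * m) (hh (n * m)) r w Y Z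
    rw [hnm, hhG] at hblock
    rw [hblock]
    have hS := fun Y Z => hn0 n hnn 0 (by omega) Y Z
    simp only [Nat.zero_mul, hh_zero, Nat.sub_zero] at hS
    set B : ℝ := C ^ n * (2 : ℝ) ^ (((n * m : ℕ) : ℝ) * H x) with hB
    have hB0 : 0 ≤ B := by positivity
    have hbd : (∑ u ∈ range (2 ^ r), ∑ v ∈ range (3 ^ w),
        x ^ (s 2 u) / x ^ (s 3 v) *
          SOv x 0 0 (n * m) (hh (n * m)) (2 ^ r * Y + u) (3 ^ w * Z + v)) ≤
        ∑ u ∈ range (2 ^ r), ∑ v ∈ range (3 ^ w), (2 : ℝ) ^ r * B := by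
      apply Finset.sum_le_sum
      intro u hu
      apply Finset.sum_le_sum
      intro v _
      have hu' : u < 2 ^ r := Finset.mem_range.1 hu
      have h1 : s 2 u ≤ r := by simpa using s_le 2 r u (by norm_num) hu'
      have h2 : x ^ (s 2 u) ≤ x ^ r := pow_le_pow_right₀ hx h1
      have h3 : x ^ r ≤ (2 : ℝ) ^ r := pow_le_pow_left₀ hx0.le (by linarith) r
      have h4 : 1 ≤ x ^ (s 3 v) := one_le_pow₀ hx
      have h6 : x ^ (s 2 u) / x ^ (s 3 v) ≤ 2 ^ r := by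
        rw [div_le_iff₀ (by positivity)]
        have h5 : (0 : ℝ) < 2 ^ r := by positivity
        nlinarith
      calc x ^ (s 2 u) / x ^ (s 3 v) *
          SOv x 0 0 (n * m) (hh (n * m)) (2 ^ r * Y + u) (3 ^ w * Z + v)
          ≤ x ^ (s 2 u) / x ^ (s 3 v) * B :=
            mul_le_mul_of_nonneg_left (hS _ _) (by positivity)
        _ ≤ 2 ^ r * B := mul_le_mul_of_nonneg_right h6 hB0
    refine le_trans hbd ?_
    rw [Finset.sum_const, Finset.sum_const, Finset.card_range, Finset.card_range,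
      nsmul_eq_mul, nsmul_eq_mul]
    push_cast
    have h3w : (3 : ℝ) ^ w ≤ 3 ^ m := pow_le_pow_right₀ (by norm_num) (by omega)
    have h2r : (2 : ℝ) ^ r ≤ 2 ^ m := pow_le_pow_right₀ (by norm_num) hrm.le
    have h12 : (2 : ℝ) ^ r * (3 ^ w * (2 ^ r * B)) ≤ 12 ^ m * B := by
      have : (12 : ℝ) ^ m = 2 ^ m * (3 ^ m * 2 ^ m) := by
        rw [← mul_pow, ← mul_pow]
        norm_num
      rw [this]
      have h7 : (2 : ℝ) ^ r * (3 ^ w * (2 ^ r * B)) = (2 : ℝ) ^ r * (3 ^ w * 2 ^ r) * B := by ring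
      rw [h7]
      gcongr
    refine le_trans h12 ?_
    have hCn : C ^ n ≤ (2 : ℝ) ^ (((n * m : ℕ) : ℝ) * ε) := by
      calc C ^ n ≤ ((2 : ℝ) ^ ((m : ℝ) * ε)) ^ n := pow_le_pow_left₀ (by linarith) hCm n
        _ = (2 : ℝ) ^ (((n * m : ℕ) : ℝ) * ε) := by
          rw [← Real.rpow_natCast, ← Real.rpow_mul (by norm_num)]
          congr 1
          push_cast
          ring
    have hBle : B ≤ (2 : ℝ) ^ ((G : ℝ) * (H x + ε)) := by
      calc B ≤ (2 : ℝ) ^ (((n * m : ℕ) : ℝ) * ε) * (2 : ℝ) ^ (((n * m : ℕ) : ℝ) * H x) := by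
            rw [hB]
            gcongr
        _ = (2 : ℝ) ^ (((n * m : ℕ) : ℝ) * (H x + ε)) := by
            rw [← Real.rpow_add (by norm_num)]
            ring_nf
        _ ≤ (2 : ℝ) ^ ((G : ℝ) * (H x + ε)) := by
            apply Real.rpow_le_rpow_of_exponent_le (by norm_num)
            have : ((n * m : ℕ) : ℝ) ≤ (G : ℝ) := by exact_mod_cast (by omega : n * m ≤ G)
            have h8 : 0 ≤ H x + ε := by linarith
            nlinarith
    calc 12 ^ m * B ≤ 12 ^ m * (2 : ℝ) ^ ((G : ℝ) * (H x + ε)) := by gcongr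
      _ ≤ K * (2 : ℝ) ^ ((G : ℝ) * (H x + ε)) := by
          apply mul_le_mul_of_nonneg_right _ (by positivity)
          rw [hK]
          nlinarith

/-- The first ternary cell of level `hh G` which meets the binary cell `Y` of level `G`. -/
def Z0 (G Y : ℕ) : ℕ := 2 ^ G * Y / 3 ^ hh G

theorem cell_sum_le (x : ℝ) (hx : 1 ≤ x) (G Y : ℕ) :
    ∑ u ∈ range (2 ^ G), x ^ (s 2 (2 ^ G * Y + u)) / x ^ (s 3 (2 ^ G * Y + u)) ≤
      ∑ i ∈ range 4, x ^ (s 2 Y) / x ^ (s 3 (Z0 G Y + i)) *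
        SOv x 0 0 G (hh G) Y (Z0 G Y + i) := by
  have hx0 : 0 < x := by linarith
  have hterm : ∀ i ∈ range 4, x ^ (s 2 Y) / x ^ (s 3 (Z0 G Y + i)) *
        SOv x 0 0 G (hh G) Y (Z0 G Y + i) =
      ∑ u ∈ range (2 ^ G), x ^ (s 2 Y) / x ^ (s 3 (Z0 G Y + i)) * ∑ v ∈ range (3 ^ hh G),
        if Ov 0 0 (2 ^ G * Y + u) (3 ^ hh G * (Z0 G Y + i) + v) then
          x ^ (s 2 u) / x ^ (s 3 v) else 0 := by
    intro i _
    unfold SOv
    rw [Finset.mul_sum]
  rw [Finset.sum_congr rfl hterm, Finset.sum_comm]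
  apply Finset.sum_le_sum
  intro u hu
  have hu' : u < 2 ^ G := Finset.mem_range.1 hu
  set b := hh G with hb
  have hb1 : 2 ^ G < 3 ^ (b + 1) := two_pow_lt G
  have hb0 : 0 < 3 ^ b := by positivity
  set n := 2 ^ G * Y + u with hn
  have hZlow : Z0 G Y ≤ n / 3 ^ b := Nat.div_le_div_right (by omega)
  have hZup : n / 3 ^ b < Z0 G Y + 4 := by
    rw [Nat.div_lt_iff_lt_mul hb0]
    have h1 : 2 ^ G * Y < 3 ^ b * (Z0 G Y + 1) := by
      unfold Z0
      exact Nat.lt_mul_div_succ _ hb0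
    have h2 : 3 ^ (b + 1) = 3 ^ b * 3 := pow_succ _ _
    have h3 : (Z0 G Y + 4) * 3 ^ b = 3 ^ b * (Z0 G Y + 1) + 3 ^ b * 3 := by ring
    omega
  have hv : n % 3 ^ b < 3 ^ b := Nat.mod_lt _ hb0
  have hdec : 3 ^ b * (n / 3 ^ b) + n % 3 ^ b = n := Nat.div_add_mod n (3 ^ b)
  have hs3 : s 3 n = s 3 (n / 3 ^ b) + s 3 (n % 3 ^ b) := by
    conv_lhs => rw [← hdec]
    exact s_concat 3 b _ _ (by norm_num) hv
  have hs2 : s 2 n = s 2 Y + s 2 u := s_concat 2 G _ _ (by norm_num) hu'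
  obtain ⟨i, hi⟩ : ∃ i, n / 3 ^ b = Z0 G Y + i := ⟨n / 3 ^ b - Z0 G Y, by omega⟩
  have hi4 : i ∈ range 4 := by
    rw [Finset.mem_range]
    omega
  have hnn : ∀ j ∈ range 4, 0 ≤ x ^ (s 2 Y) / x ^ (s 3 (Z0 G Y + j)) * ∑ v ∈ range (3 ^ b),
        if Ov 0 0 n (3 ^ b * (Z0 G Y + j) + v) then x ^ (s 2 u) / x ^ (s 3 v) else 0 := by
    intro j _
    apply mul_nonneg (by positivity)
    apply Finset.sum_nonneg
    intro v _
    split_ifs
    · positivity
    · exact le_refl _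
  refine le_trans ?_ (Finset.single_le_sum hnn hi4)
  have hnn2 : ∀ v ∈ range (3 ^ b), 0 ≤
      if Ov 0 0 n (3 ^ b * (Z0 G Y + i) + v) then
        x ^ (s 2 u) / x ^ (s 3 v) else 0 := by
    intro v _
    split_ifs
    · positivity
    · exact le_refl _
  have hOv : Ov 0 0 n (3 ^ b * (Z0 G Y + i) + n % 3 ^ b) := by
    rw [← hi, hdec]
    unfold Ov
    simp
  have hin := Finset.single_le_sum hnn2 (Finset.mem_range.2 hv)
  rw [if_pos hOv] at hin
  refine le_trans ?_ (mul_le_mul_of_nonneg_left hin (by positivity))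
  rw [hs3, hs2, hi, pow_add, pow_add]
  apply le_of_eq
  field_simp

/-- Number of `n` in the cell `Y` of level `G` with `d n = k`. -/
noncomputable def cc (k : ℤ) (G Y : ℕ) : ℝ :=
  ((((range (2 ^ G)).filter (fun u => d (2 ^ G * Y + u) = k)).card : ℕ) : ℝ)

theorem cc_nonneg (k : ℤ) (G Y : ℕ) : 0 ≤ cc k G Y := Nat.cast_nonneg _

theorem cc_mul_le (x : ℝ) (hx : 1 ≤ x) (k : ℤ) (G Y : ℕ) :
    cc k G Y * x ^ k ≤
      ∑ u ∈ range (2 ^ G), x ^ (s 2 (2 ^ G * Y + u)) / x ^ (s 3 (2 ^ G * Y + u)) := by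
  have hx0 : 0 < x := by linarith
  unfold cc
  calc ((((range (2 ^ G)).filter (fun u => d (2 ^ G * Y + u) = k)).card : ℕ) : ℝ) * x ^ k
      = ∑ u ∈ (range (2 ^ G)).filter (fun u => d (2 ^ G * Y + u) = k), x ^ k := by
        rw [Finset.sum_const, nsmul_eq_mul]
    _ = ∑ u ∈ (range (2 ^ G)).filter (fun u => d (2 ^ G * Y + u) = k),
          x ^ (s 2 (2 ^ G * Y + u)) / x ^ (s 3 (2 ^ G * Y + u)) := by
        apply Finset.sum_congr rfl
        intro u hu
        have h := (Finset.mem_filter.1 hu).2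
        rw [← h]
        unfold d
        rw [zpow_sub₀ hx0.ne', zpow_natCast, zpow_natCast]
    _ ≤ ∑ u ∈ range (2 ^ G), x ^ (s 2 (2 ^ G * Y + u)) / x ^ (s 3 (2 ^ G * Y + u)) := by
        apply Finset.sum_le_sum_of_subset_of_nonneg (Finset.filter_subset _ _)
        intros
        positivity

/-- `Y` is good: few ones in binary, and all ternary cells near it have a large digit sum. -/
def Good (G J Y : ℕ) : Prop :=
  100 * s 2 Y ≤ 52 * J ∧ ∀ i < 4, 60 * J ≤ 100 * s 3 (Z0 G Y + i)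

instance (G J Y : ℕ) : Decidable (Good G J Y) := by unfold Good; infer_instance

theorem good_le (x : ℝ) (hx : 1 ≤ x) (k : ℤ) (G J Y : ℕ) (hg : Good G J Y) (B : ℝ)
    (hB : ∀ Z, SOv x 0 0 G (hh G) Y Z ≤ B) (hB0 : 0 ≤ B) :
    cc k G Y ≤ 4 * x ^ (-k) * (x ^ (-(0.08 : ℝ) * J) * B) := by
  have hx0 : 0 < x := by linarith
  have h1 := (cc_mul_le x hx k G Y).trans (cell_sum_le x hx G Y)
  have h2 : ∑ i ∈ range 4, x ^ (s 2 Y) / x ^ (s 3 (Z0 G Y + i)) *
        SOv x 0 0 G (hh G) Y (Z0 G Y + i) ≤ ∑ i ∈ range 4, x ^ (-(0.08 : ℝ) * J) * B := by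
    apply Finset.sum_le_sum
    intro i hi
    have hi4 : i < 4 := Finset.mem_range.1 hi
    have h3 := hg.1
    have h4 := hg.2 i hi4
    have h5 : x ^ (s 2 Y) / x ^ (s 3 (Z0 G Y + i)) ≤ x ^ (-(0.08 : ℝ) * J) := by
      rw [← Real.rpow_natCast, ← Real.rpow_natCast, ← Real.rpow_sub hx0]
      apply Real.rpow_le_rpow_of_exponent_le hx
      have h6 : (100 : ℝ) * (s 2 Y : ℝ) ≤ 52 * J := by exact_mod_cast h3
      have h7 : (60 : ℝ) * J ≤ 100 * (s 3 (Z0 G Y + i) : ℝ) := by exact_mod_cast h4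
      linarith
    calc x ^ (s 2 Y) / x ^ (s 3 (Z0 G Y + i)) * SOv x 0 0 G (hh G) Y (Z0 G Y + i)
        ≤ x ^ (s 2 Y) / x ^ (s 3 (Z0 G Y + i)) * B :=
          mul_le_mul_of_nonneg_left (hB _) (by positivity)
      _ ≤ x ^ (-(0.08 : ℝ) * J) * B := mul_le_mul_of_nonneg_right h5 hB0
  have h8 := h1.trans h2
  rw [Finset.sum_const, Finset.card_range, nsmul_eq_mul] at h8
  have hxk : 0 < x ^ k := zpow_pos hx0 k
  rw [← le_div_iff₀ hxk] at h8
  refine h8.trans (le_of_eq ?_)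
  rw [zpow_neg]
  push_cast
  field_simp

end Pool.Agent.Helper78.PS
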